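import Mathlib
import Pool.Agent.BarkerLarman.Polytope

set_option autoImplicit false

namespace Pool.Agent.Results.MP_70efd9_gt.PolytopeCase

/-- **The Barker–Larman conjecture holds when the outer body is a polytope.**
Let `n ≥ 3`, let `K` be a convex body and `K1` a polytope with `K ⊆ interior K1`.  Then some
section of `K1` by a hyperplane supporting `K` is not centrally symmetric. -/
theorem result (n : ℕ) (hn : 3 ≤ n) (K K1 : Set (EuclideanSpace ℝ (Fin n)))
    (hK : Convex ℝ K) (hKc : IsCompact K) (hKi : (interior K).Nonempty)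
    (F : Set (EuclideanSpace ℝ (Fin n))) (hF : F.Finite) (hK1 : K1 = convexHull ℝ F)
    (hsub : K ⊆ interior K1) :
    ¬ (∀ (f : EuclideanSpace ℝ (Fin n) →L[ℝ] ℝ) (c : ℝ), f ≠ 0 →
        (∀ x ∈ K, f x ≤ c) → (∃ x ∈ K, f x = c) →
        ∃ p : EuclideanSpace ℝ (Fin n), ∀ x ∈ K1, f x = c →
          ((2 : ℝ) • p - x ∈ K1 ∧ f ((2 : ℝ) • p - x) = c)) :=
  Pool.Agent.BarkerLarman.polytope_case n hn K K1 hK hKc hKi F hF hK1 hsub

end Pool.Agent.Results.MP_70efd9_gt.PolytopeCase
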